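import Mathlib

namespace Pool.Agent.Results.MP_db617b_an.Disconnected

open Set

/-- The breakpoints `s_0 = 0, s_1, …, s_k, s_{k+1} = 1`. -/
def ends {k : ℕ} (s : Fin k → ℝ) : Fin (k + 2) → ℝ :=
  Fin.cons 0 (Fin.snoc (α := fun _ => ℝ) s 1)

/-- The parameter polytope `P`. -/
def P (k : ℕ) : Set ((Fin k → ℝ) × (Fin (k + 1) → ℝ)) :=
  {p | Monotone (ends p.1) ∧ (∀ i, 0 ≤ p.2 i) ∧ ∑ i, p.2 i = 1}

/-- The coordinate of the moment map at the exponent `a`. -/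
noncomputable def mu {k : ℕ} (a : ℕ) (p : (Fin k → ℝ) × (Fin (k + 1) → ℝ)) : ℝ :=
  ∑ i : Fin (k + 1), p.2 i *
    ((∑ j ∈ Finset.range (a + 1), ends p.1 i.succ ^ (a - j) * ends p.1 i.castSucc ^ j) / (a + 1))

/-- The fibre of `μ_A` over the vector `(m a)_{a ∈ A}`. -/
def fibre (k : ℕ) (A : Finset ℕ) (m : A → ℝ) : Set ((Fin k → ℝ) × (Fin (k + 1) → ℝ)) :=
  {p | p ∈ P k ∧ ∀ a : A, mu a p = m a}

lemma e0 (s : Fin 2 → ℝ) : ends s 0 = 0 := rfl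
lemma e1 (s : Fin 2 → ℝ) : ends s 1 = s 0 := rfl
lemma e2 (s : Fin 2 → ℝ) : ends s 2 = s 1 := rfl
lemma e3 (s : Fin 2 → ℝ) : ends s 3 = 1 := rfl

lemma mu_eq (a : ℕ) (p : (Fin 2 → ℝ) × (Fin 3 → ℝ)) : mu a p =
    p.2 0 * ((∑ j ∈ Finset.range (a + 1), p.1 0 ^ (a - j) * 0 ^ j) / (a + 1)) +
    p.2 1 * ((∑ j ∈ Finset.range (a + 1), p.1 1 ^ (a - j) * p.1 0 ^ j) / (a + 1)) +
    p.2 2 * ((∑ j ∈ Finset.range (a + 1), 1 ^ (a - j) * p.1 1 ^ j) / (a + 1)) := by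
  unfold mu; rw [Fin.sum_univ_three]; rfl

lemma mono (s : Fin 2 → ℝ) (h0 : 0 ≤ s 0) (h1 : s 0 ≤ s 1) (h2 : s 1 ≤ 1) : Monotone (ends s) := by
  rw [Fin.monotone_iff_le_succ]
  intro i
  fin_cases i
  · exact h0
  · exact h1
  · exact h2

noncomputable def mv (a : ℕ) : ℝ := if a = 1 then 43 / 70 else if a = 2 then 47 / 105 else 1219 / 3500

lemma mem_iff (p : (Fin 2 → ℝ) × (Fin 3 → ℝ)) :
    p ∈ fibre 2 {1, 2, 3} (fun a => mv a) ↔
      p ∈ P 2 ∧ mu 1 p = 43 / 70 ∧ mu 2 p = 47 / 105 ∧ mu 3 p = 1219 / 3500 := by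
  unfold fibre
  refine and_congr_right fun _ => ⟨fun h => ⟨?_, ?_, ?_⟩, fun h a => ?_⟩
  · simpa [mv] using h ⟨1, by simp⟩
  · simpa [mv] using h ⟨2, by simp⟩
  · simpa [mv] using h ⟨3, by simp⟩
  · obtain ⟨a, ha⟩ := a
    simp only [Finset.mem_insert, Finset.mem_singleton] at ha
    rcases ha with rfl | rfl | rfl <;> simp [mv, h]

theorem result : ∃ (k : ℕ) (A : Finset ℕ) (m : A → ℝ), 1 ≤ k ∧ ¬ IsPreconnected (fibre k A m) := by
  refine ⟨2, {1, 2, 3}, fun a => mv a, by norm_num, fun H => ?_⟩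
  let φ : (Fin 2 → ℝ) × (Fin 3 → ℝ) → ℝ := fun p => p.2 1 * p.1 0 - p.2 0 * (p.1 1 - p.1 0)
  have hφ : Continuous φ := by fun_prop
  have hf : (![1 / 5, 2 / 5], ![1 / 7, 0, 6 / 7]) ∈ fibre 2 {1, 2, 3} (fun a => mv a) := by
    rw [mem_iff]
    refine ⟨⟨mono _ ?_ ?_ ?_, ?_, ?_⟩, ?_, ?_, ?_⟩
    · norm_num
    · norm_num
    · norm_num
    · intro i; fin_cases i <;> norm_num
    · simp [Fin.sum_univ_three]; norm_num
    all_goals (rw [mu_eq]; simp [Finset.sum_range_succ]; norm_num)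
  have hg : (![3 / 5, 4 / 5], ![12 / 35, 14 / 35, 9 / 35]) ∈ fibre 2 {1, 2, 3} (fun a => mv a) := by
    rw [mem_iff]
    refine ⟨⟨mono _ ?_ ?_ ?_, ?_, ?_⟩, ?_, ?_, ?_⟩
    · norm_num
    · norm_num
    · norm_num
    · intro i; fin_cases i <;> norm_num
    · simp [Fin.sum_univ_three]; norm_num
    all_goals (rw [mu_eq]; simp [Finset.sum_range_succ]; norm_num)
  have h0 : (0 : ℝ) ∈ Icc (φ (![1 / 5, 2 / 5], ![1 / 7, 0, 6 / 7]))
      (φ (![3 / 5, 4 / 5], ![12 / 35, 14 / 35, 9 / 35])) := by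
    simp [φ]; norm_num
  obtain ⟨p, hp, hz⟩ := H.intermediate_value hf hg hφ.continuousOn h0
  rw [mem_iff] at hp
  obtain ⟨⟨-, -, hs⟩, h1, h2, h3⟩ := hp
  rw [Fin.sum_univ_three] at hs
  rw [mu_eq] at h1 h2 h3
  simp only [φ] at hz
  simp [Finset.sum_range_succ] at h1 h2 h3
  set a := p.1 0
  set t := p.1 1
  set u := p.2 0
  set w := p.2 1
  set v := p.2 2
  have g1 : t + v = 43 / 35 := by linear_combination 2 * h1 - hz - t * hs
  have g2 : t ^ 2 + v * (1 + t) = 47 / 35 := by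
    linear_combination 3 * h2 - (a + t) * hz - t ^ 2 * hs
  have g3 : t ^ 3 + v * (1 + t + t ^ 2) = 1219 / 875 := by
    linear_combination 4 * h3 - (a ^ 2 + a * t + t ^ 2) * hz - t ^ 3 * hs
  have ht : t = 1 / 2 := by linear_combination 35 / 8 * g2 - 35 / 8 * (1 + t) * g1
  have hv : v = 51 / 70 := by linarith
  rw [ht, hv] at g3
  norm_num at g3

end Pool.Agent.Results.MP_db617b_an.Disconnected
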